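import Pool.Agent.Helper22.JefTVar
import Pool.Agent.Helper42.Jef.Weak
import Pool.Agent.Helper42.Jef.Mat
import Pool.Agent.Helper42.Jef.Defs3

/-! # Preparations for the key inequality `lemmaP` -/

open MeasureTheory Set Filter Topology
open scoped ENNReal ContDiff

namespace Pool.Agent.Helper1.JefP

open Pool.Agent.Helper42.Jef Pool.Agent.Helper22.Jef

/-- choose an error sequence from a family of monotone predicates -/
theorem exists_e (P : ℕ → ℝ → Prop) (hmono : ∀ k ε ε', ε ≤ ε' → P k ε → P k ε')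
    (h0 : ∀ k, ∃ ε0, P k ε0) (h : ∀ ε : ℝ, 0 < ε → ∀ᶠ k in atTop, P k ε) :
    ∃ e : ℕ → ℝ, Tendsto e atTop (𝓝 0) ∧ ∀ k, P k (e k) := by
  classical
  let A : ℕ → Set ℝ := fun k => {ε | 0 < ε ∧ P k ε}
  have hne : ∀ k, (A k).Nonempty := by
    intro k
    obtain ⟨ε0, h0⟩ := h0 k
    exact ⟨max ε0 1, lt_of_lt_of_le one_pos (le_max_right _ _), hmono k _ _ (le_max_left _ _) h0⟩
  have hbb : ∀ k, BddBelow (A k) := fun k => ⟨0, fun ε hε => hε.1.le⟩
  refine ⟨fun k => sInf (A k) + 1 / ((k : ℝ) + 1), ?_, ?_⟩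
  · have h1 : Tendsto (fun k => sInf (A k)) atTop (𝓝 0) := by
      rw [tendsto_order]
      constructor
      · intro a ha
        filter_upwards with k
        exact lt_of_lt_of_le ha (le_csInf (hne k) fun ε hε => hε.1.le)
      · intro a ha
        filter_upwards [h (a / 2) (by linarith)] with k hk
        have : sInf (A k) ≤ a / 2 := csInf_le (hbb k) ⟨by linarith, hk⟩
        linarith
    have h2 := h1.add (tendsto_one_div_add_atTop_nhds_zero_nat (𝕜 := ℝ))
    rwa [add_zero] at h2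
  · intro k
    have h1 : (0 : ℝ) < 1 / ((k : ℝ) + 1) := by positivity
    have h2 : sInf (A k) < sInf (A k) + 1 / ((k : ℝ) + 1) := by linarith
    obtain ⟨ε, hε, hlt⟩ := exists_lt_of_csInf_lt (hne k) h2
    exact hmono k _ _ hlt.le hε.2

variable {α : Type*} [MeasurableSpace α] {μ : Measure α}
variable {E : Type*} [NormedAddCommGroup E] [InnerProductSpace ℝ E]

theorem wsmul_mem {ζ : α → ℝ} (hζ : AEStronglyMeasurable ζ μ) {C : ℝ}
    (hC : ∀ᵐ x ∂μ, |ζ x| ≤ C) {W : α → E} (hW : MemLp W 2 μ) :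
    MemLp (fun x => ζ x • W x) 2 μ := by
  refine hW.of_le_mul (c := C) (hζ.smul hW.1) ?_
  filter_upwards [hC] with x hx
  rw [norm_smul, Real.norm_eq_abs]
  exact mul_le_mul_of_nonneg_right hx (norm_nonneg _)

theorem wint {ζ : α → ℝ} (hζ : AEStronglyMeasurable ζ μ) {C : ℝ}
    (hC : ∀ᵐ x ∂μ, |ζ x| ≤ C) {f : α → ℝ} (hf : Integrable f μ) :
    Integrable (fun x => ζ x * f x) μ := by
  refine (hf.norm.const_mul C).mono' (hζ.mul hf.1) ?_
  filter_upwards [hC] with x hx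
  rw [norm_mul, Real.norm_eq_abs (ζ x)]
  exact mul_le_mul_of_nonneg_right hx (norm_nonneg _)

theorem l2mul {f g : α → ℝ} (hf : MemLp f 2 μ) (hg : MemLp g 2 μ) :
    Integrable (fun x => f x * g x) μ := hf.integrable_mul hg

/-- limit of weighted second moments around a fixed function -/
theorem var_lim {v : ℕ → α → E} {U : α → E} {s : α → ℝ} (hv : WC μ v U)
    (hs : WC μ (fun m x => ‖v m x‖ ^ 2) s) {W : α → E} (hW : MemLp W 2 μ) {ζ : α → ℝ}
    (hζ : MemLp ζ 2 μ) {C : ℝ} (hC : ∀ᵐ x ∂μ, |ζ x| ≤ C) :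
    Tendsto (fun m => ∫ x, ζ x * ‖v m x - W x‖ ^ 2 ∂μ) atTop
      (𝓝 (∫ x, ζ x * (s x - 2 * inner ℝ (U x) (W x) + ‖W x‖ ^ 2) ∂μ)) := by
  have hζW := wsmul_mem hζ.1 hC hW
  have key : ∀ {V : α → E} {r : α → ℝ}, MemLp V 2 μ → MemLp r 2 μ →
      ∫ x, ζ x * (r x - 2 * inner ℝ (V x) (W x) + ‖W x‖ ^ 2) ∂μ =
        ∫ x, inner ℝ (r x) (ζ x) ∂μ - 2 * ∫ x, inner ℝ (V x) (ζ x • W x) ∂μ +
          ∫ x, ζ x * ‖W x‖ ^ 2 ∂μ := by
    intro V r hV hr
    have i1 : Integrable (fun x => inner ℝ (r x) (ζ x)) μ := l2_inner hr hζ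
    have i2 : Integrable (fun x => 2 * inner ℝ (V x) (ζ x • W x)) μ :=
      (l2_inner hV hζW).const_mul 2
    have i3 : Integrable (fun x => ζ x * ‖W x‖ ^ 2) μ := wint hζ.1 hC (l2_sq hW)
    have i12 : Integrable (fun x => inner ℝ (r x) (ζ x) - 2 * inner ℝ (V x) (ζ x • W x)) μ :=
      i1.sub i2
    rw [← integral_const_mul, ← integral_sub i1 i2, ← integral_add i12 i3]
    refine integral_congr_ae (Eventually.of_forall fun x => ?_)
    simp only [inner_smul_right, RCLike.inner_apply, conj_trivial]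
    ring
  rw [key hv.memU hs.memU]
  have h1 := hs.conv ζ hζ
  have h2 := (hv.conv _ hζW).const_mul 2
  refine ((h1.sub h2).add_const _).congr (fun m => ?_)
  rw [← key (hv.mem m) (hs.mem m)]
  refine integral_congr_ae (Eventually.of_forall fun x => ?_)
  simp only
  rw [norm_sub_sq_real]

/-- weak convergence tested with a bounded `L²` weight times a fixed function -/
theorem zero_lim {v : ℕ → α → E} {U : α → E} (hv : WC μ v U) {W : α → E} (hW : MemLp W 2 μ) :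
    Tendsto (fun m => ∫ x, inner ℝ (v m x - U x) (W x) ∂μ) atTop (𝓝 0) := by
  have h1 := (hv.conv W hW).sub_const (∫ x, inner ℝ (U x) (W x) ∂μ)
  rw [sub_self] at h1
  refine h1.congr fun m => ?_
  rw [← integral_sub (l2_inner (hv.mem m) hW) (l2_inner hv.memU hW)]
  refine integral_congr_ae (Eventually.of_forall fun x => ?_)
  simp only [inner_sub_left]

section tv

variable [SigmaFinite μ] [FiniteDimensional ℝ E] [MeasurableSpace E] [BorelSpace E]

/-- the facts about truncated weak limits used below -/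
theorem tv_pack {u : ℕ → α → E} {U : α → E} {uk : ℕ → α → E} {ak : ℕ → α → ℝ}
    (h : TV μ u U uk ak) {θ : α → ℝ} (hθi : Integrable θ μ)
    (hθ : Tendsto (fun k => ∫ x, |ak k x - ‖uk k x‖ ^ 2 - θ x| ∂μ) atTop (𝓝 0)) :
    ∃ A : α → ℝ, Integrable A μ ∧
      (∀ᵐ x ∂μ, ∀ k, ‖uk k x‖ ^ 2 ≤ ak k x ∧ ak k x ≤ A x ∧ ‖uk k x‖ ≤ k + 1) ∧
      (∀ᵐ x ∂μ, 0 ≤ θ x) ∧
      (∀ k, Integrable (ak k) μ) ∧
      Tendsto (fun k => ∫ x, |A x - ak k x| ∂μ) atTop (𝓝 0) ∧
      (∀ (ζ : α → ℝ) (C : ℝ), AEStronglyMeasurable ζ μ → (∀ᵐ x ∂μ, |ζ x| ≤ C) →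
        Tendsto (fun k => ∫ x, ζ x * (ak k x - 2 * inner ℝ (uk k x) (U x) + ‖U x‖ ^ 2) ∂μ)
          atTop (𝓝 (∫ x, ζ x * θ x ∂μ))) := by
  obtain ⟨A, hA, hb, hta, htu, hUA, hi, hL1, hs⟩ := tv_main h
  have hθ' : Tendsto (fun k => ∫ x, |ak k x - ‖uk k x‖ ^ 2 - (A x - ‖U x‖ ^ 2)| ∂μ) atTop
      (𝓝 0) := by
    have h1 : Tendsto (fun k => ∫ x, |ak k x - ‖uk k x‖ ^ 2 - (A x - ‖U x‖ ^ 2)| ∂μ) atTop
        (𝓝 (∫ _, (0 : ℝ) ∂μ)) := by
      refine tendsto_integral_of_dominated_convergence A ?_ hA ?_ ?_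
      · intro k
        exact (((hi k).sub (l2_sq (h.wk k).memU)).sub (hA.sub (l2_sq h.w.memU))).abs.1
      · intro k
        filter_upwards [hb, hUA] with x hx hx2
        obtain ⟨h1, -, h3, -, -⟩ := hx k
        rw [Real.norm_eq_abs, abs_abs, abs_le]
        constructor <;> nlinarith [sq_nonneg ‖U x‖, sq_nonneg ‖uk k x‖]
      · filter_upwards [hta, htu] with x h1 h2
        have h3 := ((h1.sub (h2.norm.pow 2)).sub_const (A x - ‖U x‖ ^ 2)).abs
        simpa using h3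
    simpa using h1
  have hθA : ∀ᵐ x ∂μ, θ x = A x - ‖U x‖ ^ 2 := by
    have i0 : Integrable (fun x => A x - ‖U x‖ ^ 2) μ := hA.sub (l2_sq h.w.memU)
    have i1 : Integrable (fun x => |θ x - (A x - ‖U x‖ ^ 2)|) μ := (hθi.sub i0).abs
    have h2 : ∫ x, |θ x - (A x - ‖U x‖ ^ 2)| ∂μ ≤ 0 := by
      refine ge_of_tendsto' (by simpa using hθ.add hθ') (fun k => ?_)
      have ik : Integrable (fun x => ak k x - ‖uk k x‖ ^ 2) μ :=
        (hi k).sub (l2_sq (h.wk k).memU)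
      have i2 : Integrable (fun x => |ak k x - ‖uk k x‖ ^ 2 - θ x|) μ := (ik.sub hθi).abs
      have i3 : Integrable (fun x => |ak k x - ‖uk k x‖ ^ 2 - (A x - ‖U x‖ ^ 2)|) μ :=
        (ik.sub i0).abs
      rw [← integral_add i2 i3]
      refine integral_mono i1 (i2.add i3) (fun x => ?_)
      simp only
      have h3 := abs_sub (ak k x - ‖uk k x‖ ^ 2 - (A x - ‖U x‖ ^ 2))
        (ak k x - ‖uk k x‖ ^ 2 - θ x)
      have h4 : ak k x - ‖uk k x‖ ^ 2 - (A x - ‖U x‖ ^ 2) - (ak k x - ‖uk k x‖ ^ 2 - θ x) =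
        θ x - (A x - ‖U x‖ ^ 2) := by ring
      rw [h4] at h3
      linarith
    have h5 : ∫ x, |θ x - (A x - ‖U x‖ ^ 2)| ∂μ = 0 :=
      le_antisymm h2 (integral_nonneg fun x => abs_nonneg _)
    rw [integral_eq_zero_iff_of_nonneg (fun x => abs_nonneg _) i1] at h5
    filter_upwards [h5] with x hx
    have : |θ x - (A x - ‖U x‖ ^ 2)| = 0 := hx
    linarith [abs_eq_zero.1 this]
  refine ⟨A, hA, ?_, ?_, hi, hL1, ?_⟩
  · filter_upwards [hb] with x hx k
    exact ⟨(hx k).1, (hx k).2.2.1, (hx k).2.2.2.1⟩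
  · filter_upwards [hθA, hUA] with x h1 h2
    rw [h1]; linarith
  · intro ζ C hζ hC
    have hI : ∫ x, ζ x * θ x ∂μ = ∫ x, ζ x * (A x - ‖U x‖ ^ 2) ∂μ := by
      refine integral_congr_ae ?_
      filter_upwards [hθA] with x hx
      rw [hx]
    rw [hI]
    refine tendsto_integral_of_dominated_convergence (fun x => C * (4 * A x)) ?_
      ((hA.const_mul 4).const_mul C) ?_ ?_
    · intro k
      refine hζ.mul ?_
      exact (((h.wa k).memU.1.sub (((h.wk k).memU.1.inner h.w.memU.1).const_mul 2)).add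
        (l2_sq h.w.memU).1)
    · intro k
      filter_upwards [hb, hUA, hC] with x hx hx2 hx3
      obtain ⟨h1, -, h3, -, -⟩ := hx k
      rw [Real.norm_eq_abs, abs_mul]
      have h4 : |ak k x - 2 * inner ℝ (uk k x) (U x) + ‖U x‖ ^ 2| ≤ 4 * A x := by
        have h5 := abs_le.1 (abs_real_inner_le_norm (uk k x) (U x))
        have h6 : ‖uk k x‖ * ‖U x‖ ≤ A x := by
          nlinarith [sq_nonneg (‖uk k x‖ - ‖U x‖)]
        rw [abs_le]
        constructor <;> nlinarith [sq_nonneg ‖U x‖, sq_nonneg ‖uk k x‖]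
      exact mul_le_mul hx3 h4 (abs_nonneg _) ((abs_nonneg _).trans hx3)
    · filter_upwards [hta, htu] with x h1 h2
      have h3 : Tendsto (fun k => inner ℝ (uk k x) (U x)) atTop (𝓝 (inner ℝ (U x) (U x))) :=
        h2.inner tendsto_const_nhds
      have h4 := (((h1.sub (h3.const_mul 2)).add_const (‖U x‖ ^ 2)).const_mul (ζ x))
      rw [real_inner_self_eq_norm_sq] at h4
      have h5 : ζ x * (A x - 2 * ‖U x‖ ^ 2 + ‖U x‖ ^ 2) = ζ x * (A x - ‖U x‖ ^ 2) := by ring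
      rwa [h5] at h4

end tv

/-- uniform integrability, in the form used below -/
theorem trunc_tail {A : α → ℝ} (hA : Integrable A μ) :
    Tendsto (fun N : ℕ => ∫ x, max (A x - N) 0 ∂μ) atTop (𝓝 0) := by
  have h1 : Tendsto (fun N : ℕ => ∫ x, max (A x - N) 0 ∂μ) atTop (𝓝 (∫ _, (0 : ℝ) ∂μ)) := by
    refine tendsto_integral_of_dominated_convergence (fun x => |A x|) ?_ hA.abs ?_ ?_
    · intro N
      exact (hA.1.sub aestronglyMeasurable_const).sup aestronglyMeasurable_const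
    · intro N
      filter_upwards with x
      rw [Real.norm_eq_abs, abs_of_nonneg (le_max_right _ _)]
      refine max_le ?_ (abs_nonneg _)
      have := le_abs_self (A x)
      have h2 : (0 : ℝ) ≤ N := Nat.cast_nonneg N
      linarith
    · filter_upwards with x
      refine tendsto_const_nhds.congr' ?_
      filter_upwards [eventually_ge_atTop ⌈A x⌉₊] with N hN
      have h2 : A x ≤ N := (Nat.le_ceil _).trans (by exact_mod_cast hN)
      rw [max_eq_right (by linarith)]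
  simpa using h1

end Pool.Agent.Helper1.JefP
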