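import Pool.Agent.Helper1.JefP.A

/-! # The pointwise inequality for the damping/stretching part -/

open MeasureTheory Set Filter Topology
open scoped ENNReal ContDiff

namespace Pool.Agent.Helper1.JefP

open Pool.Agent.Helper42.Jef Pool.Agent.Helper22.Jef

variable {E : Type*} [NormedAddCommGroup E] [InnerProductSpace ℝ E]

theorem comb_sq_le (T : E →L[ℝ] E) (hT : ∀ x, ‖T x‖ ≤ ‖x‖) (a c : ℝ) (x y : E) :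
    ‖c • T x - a • y‖ ^ 2 ≤ 2 * c ^ 2 * ‖x‖ ^ 2 + 2 * a ^ 2 * ‖y‖ ^ 2 := by
  have h1 : ‖c • T x - a • y‖ ≤ |c| * ‖x‖ + |a| * ‖y‖ := by
    refine (norm_sub_le _ _).trans ?_
    rw [norm_smul, norm_smul, Real.norm_eq_abs, Real.norm_eq_abs]
    have := mul_le_mul_of_nonneg_left (hT x) (abs_nonneg c)
    linarith
  have h2 : ‖c • T x - a • y‖ ^ 2 ≤ (|c| * ‖x‖ + |a| * ‖y‖) ^ 2 :=
    pow_le_pow_left₀ (norm_nonneg _) h1 2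
  have h3 : (|c| * ‖x‖) ^ 2 = c ^ 2 * ‖x‖ ^ 2 := by rw [mul_pow, sq_abs]
  have h4 : (|a| * ‖y‖) ^ 2 = a ^ 2 * ‖y‖ ^ 2 := by rw [mul_pow, sq_abs]
  nlinarith [sq_nonneg (|c| * ‖x‖ - |a| * ‖y‖)]

/-- the estimate of the truncation commutator -/
theorem ptR {t P w : E} {k l j : ℕ} (hkj : k ≤ j) (hlj : 2 * (l + 1) ≤ j + 1) {lam N A : ℝ}
    (hlam : 0 < lam) (hN : 0 ≤ N) (hw : ‖w‖ ^ 2 ≤ A) :
    2 * inner ℝ (bk ((k : ℝ) + 1) t - w) (fderiv ℝ (bk ((k : ℝ) + 1)) t P - P) ≤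
      4 * ((l : ℝ) + 1) / ((k : ℝ) + 1) * (‖bk ((k : ℝ) + 1) t - w‖ ^ 2 + ‖P‖ ^ 2) +
      lam * ‖P‖ ^ 2 + 16 / lam * (‖bk ((j : ℝ) + 1) t‖ ^ 2 - ‖bk ((l : ℝ) + 1) t‖ ^ 2) +
      8 / lam * (max (A - N) 0 + N * (‖t‖ ^ 2 / (2 * ((l : ℝ) + 1)) ^ 2)) := by
  have hk : (0 : ℝ) < (k : ℝ) + 1 := by positivity
  have hl : (0 : ℝ) < (l : ℝ) + 1 := by positivity
  have hj : (0 : ℝ) < (j : ℝ) + 1 := by positivity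
  have hkj' : (k : ℝ) + 1 ≤ (j : ℝ) + 1 := by
    have : (k : ℝ) ≤ j := by exact_mod_cast hkj
    linarith
  have hlj' : 2 * ((l : ℝ) + 1) ≤ (j : ℝ) + 1 := by exact_mod_cast hlj
  have hlj2 : (l : ℝ) + 1 ≤ (j : ℝ) + 1 := by linarith
  set d := bk ((k : ℝ) + 1) t - w with hd
  set D := fderiv ℝ (bk ((k : ℝ) + 1)) t with hD
  have h0 : inner ℝ d (D P - P) ≤ ‖d‖ * ‖D P - P‖ := real_inner_le_norm _ _
  have hbm : ‖bk ((l : ℝ) + 1) t‖ ^ 2 ≤ ‖bk ((j : ℝ) + 1) t‖ ^ 2 :=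
    pow_le_pow_left₀ (norm_nonneg _) (bk_mono hl hlj2 t) 2
  have hb0 : 0 ≤ 16 / lam * (‖bk ((j : ℝ) + 1) t‖ ^ 2 - ‖bk ((l : ℝ) + 1) t‖ ^ 2) := by
    apply mul_nonneg (by positivity); linarith
  have hA0 : 0 ≤ 8 / lam * (max (A - N) 0 + N * (‖t‖ ^ 2 / (2 * ((l : ℝ) + 1)) ^ 2)) := by
    have : (0 : ℝ) ≤ max (A - N) 0 := le_max_right _ _
    positivity
  rcases lt_or_ge ‖t‖ (2 * ((l : ℝ) + 1)) with ht | ht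
  · have h1 : ‖D P - P‖ ≤ 4 * ((l : ℝ) + 1) / ((k : ℝ) + 1) * ‖P‖ := by
      refine (bk_fderiv_sub_le hk t P).trans ?_
      apply mul_le_mul_of_nonneg_right _ (norm_nonneg _)
      rw [mul_div_assoc']
      apply div_le_div_of_nonneg_right _ hk.le
      linarith
    have h2 : 2 * (‖d‖ * ‖D P - P‖) ≤
        4 * ((l : ℝ) + 1) / ((k : ℝ) + 1) * (‖d‖ ^ 2 + ‖P‖ ^ 2) := by
      have h3 : ‖d‖ * ‖D P - P‖ ≤ ‖d‖ * (4 * ((l : ℝ) + 1) / ((k : ℝ) + 1) * ‖P‖) :=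
        mul_le_mul_of_nonneg_left h1 (norm_nonneg _)
      have h4 : 0 ≤ 4 * ((l : ℝ) + 1) / ((k : ℝ) + 1) * (‖d‖ - ‖P‖) ^ 2 := by positivity
      nlinarith
    have h5 : 0 ≤ lam * ‖P‖ ^ 2 := by positivity
    linarith
  · have h1 : ‖D P - P‖ ≤ 2 * ‖P‖ := bk_fderiv_sub_le_two _ t P
    have h2 : 2 * (‖d‖ * ‖D P - P‖) ≤ 4 / lam * ‖d‖ ^ 2 + lam * ‖P‖ ^ 2 := by
      have h3 : ‖d‖ * ‖D P - P‖ ≤ ‖d‖ * (2 * ‖P‖) :=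
        mul_le_mul_of_nonneg_left h1 (norm_nonneg _)
      have h4 : 4 / lam * ‖d‖ ^ 2 + lam * ‖P‖ ^ 2 - 4 * (‖d‖ * ‖P‖) =
          (2 * ‖d‖ - lam * ‖P‖) ^ 2 / lam := by
        field_simp
        ring
      have h5 : 0 ≤ (2 * ‖d‖ - lam * ‖P‖) ^ 2 / lam := by positivity
      linarith
    have h6 : ‖d‖ ^ 2 ≤ 2 * ‖bk ((k : ℝ) + 1) t‖ ^ 2 + 2 * ‖w‖ ^ 2 := by
      have h7 := norm_sub_le (bk ((k : ℝ) + 1) t) w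
      have h8 : ‖d‖ ^ 2 ≤ (‖bk ((k : ℝ) + 1) t‖ + ‖w‖) ^ 2 :=
        pow_le_pow_left₀ (norm_nonneg _) h7 2
      nlinarith [sq_nonneg (‖bk ((k : ℝ) + 1) t‖ - ‖w‖)]
    have h9 : ‖bk ((k : ℝ) + 1) t‖ ^ 2 ≤ ‖bk ((j : ℝ) + 1) t‖ ^ 2 :=
      pow_le_pow_left₀ (norm_nonneg _) (bk_mono hk hkj' t) 2
    have h10 := bk_big hl (x := t) ht hlj'
    have h11 : A ≤ max (A - N) 0 + N * (‖t‖ ^ 2 / (2 * ((l : ℝ) + 1)) ^ 2) := by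
      have h12 : 1 ≤ ‖t‖ ^ 2 / (2 * ((l : ℝ) + 1)) ^ 2 := by
        rw [le_div_iff₀ (by positivity), one_mul]
        exact pow_le_pow_left₀ (by positivity) ht 2
      have h13 : A - N ≤ max (A - N) 0 := le_max_left _ _
      nlinarith
    have h14 : 4 / lam * ‖d‖ ^ 2 ≤
        16 / lam * (‖bk ((j : ℝ) + 1) t‖ ^ 2 - ‖bk ((l : ℝ) + 1) t‖ ^ 2) +
        8 / lam * (max (A - N) 0 + N * (‖t‖ ^ 2 / (2 * ((l : ℝ) + 1)) ^ 2)) := by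
      have h15 : ‖d‖ ^ 2 ≤ 4 * (‖bk ((j : ℝ) + 1) t‖ ^ 2 - ‖bk ((l : ℝ) + 1) t‖ ^ 2) +
        2 * (max (A - N) 0 + N * (‖t‖ ^ 2 / (2 * ((l : ℝ) + 1)) ^ 2)) := by linarith
      have h16 := mul_le_mul_of_nonneg_left h15 (by positivity : (0 : ℝ) ≤ 4 / lam)
      refine h16.trans (le_of_eq ?_)
      ring
    have h17 : 0 ≤ 4 * ((l : ℝ) + 1) / ((k : ℝ) + 1) * (‖d‖ ^ 2 + ‖P‖ ^ 2) := by positivity
    linarith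

/-- the error terms of the pointwise inequality -/
noncomputable def errI (a c : ℝ) (k l j : ℕ) (lam N A : ℝ) (t g w : E) : ℝ :=
  4 * ((k : ℝ) + 1) / ((j : ℝ) + 1) * (|c| * ‖g‖ ^ 2 + |a| * ‖t‖ ^ 2) +
    4 * ((l : ℝ) + 1) / ((k : ℝ) + 1) *
      (‖bk ((k : ℝ) + 1) t - w‖ ^ 2 + (2 * c ^ 2 * ‖g‖ ^ 2 + 2 * a ^ 2 * ‖t‖ ^ 2)) +
    lam * (2 * c ^ 2 * ‖g‖ ^ 2 + 2 * a ^ 2 * ‖t‖ ^ 2) +
    8 / lam * (max (A - N) 0 + N * (‖t‖ ^ 2 / (2 * ((l : ℝ) + 1)) ^ 2))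

theorem errI_nonneg (a c : ℝ) (k l j : ℕ) {lam N A : ℝ} (hlam : 0 < lam) (hN : 0 ≤ N)
    (t g w : E) : 0 ≤ errI a c k l j lam N A t g w := by
  unfold errI
  have h1 : (0 : ℝ) ≤ max (A - N) 0 := le_max_right _ _
  positivity

theorem ptI (T : E →L[ℝ] E) (hT : ∀ x, ‖T x‖ ≤ ‖x‖) (a c : ℝ) {t g w : E} (U W : E)
    {k l j : ℕ} (hkj : k ≤ j) (hlj : 2 * (l + 1) ≤ j + 1) {lam N A : ℝ} (hlam : 0 < lam)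
    (hN : 0 ≤ N) (hw : ‖w‖ ^ 2 ≤ A) (hwk : ‖w‖ ≤ (k : ℝ) + 1) :
    2 * inner ℝ (bk ((k : ℝ) + 1) t - w) (fderiv ℝ (bk ((k : ℝ) + 1)) t (c • T g - a • t)) ≤
      errI a c k l j lam N A t g w +
      16 / lam * (‖bk ((j : ℝ) + 1) t‖ ^ 2 - ‖bk ((l : ℝ) + 1) t‖ ^ 2) +
      ‖bk ((k : ℝ) + 1) t - w‖ ^ 2 +
      (2 * c ^ 2 * ‖bk ((j : ℝ) + 1) g - W‖ ^ 2 + 2 * a ^ 2 * ‖bk ((j : ℝ) + 1) t - U‖ ^ 2) +
      2 * inner ℝ (bk ((k : ℝ) + 1) t - w) (c • T W - a • U) := by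
  have hk : (0 : ℝ) < (k : ℝ) + 1 := by positivity
  have hj : (0 : ℝ) < (j : ℝ) + 1 := by positivity
  obtain ⟨P, hP⟩ : ∃ P, P = c • T (bk ((j : ℝ) + 1) g) - a • bk ((j : ℝ) + 1) t := ⟨_, rfl⟩
  obtain ⟨Q, hQ⟩ : ∃ Q, Q = c • T g - a • t := ⟨_, rfl⟩
  obtain ⟨Z, hZ⟩ : ∃ Z, Z = c • T W - a • U := ⟨_, rfl⟩
  have hR := ptR (P := P) (w := w) (t := t) hkj hlj hlam hN hw
  have hP2 : ‖P‖ ^ 2 ≤ 2 * c ^ 2 * ‖g‖ ^ 2 + 2 * a ^ 2 * ‖t‖ ^ 2 := by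
    rw [hP]
    refine (comb_sq_le T hT a c _ _).trans ?_
    have h1 : ‖bk ((j : ℝ) + 1) g‖ ^ 2 ≤ ‖g‖ ^ 2 :=
      pow_le_pow_left₀ (norm_nonneg _) (bk_norm_le _ _) 2
    have h2 : ‖bk ((j : ℝ) + 1) t‖ ^ 2 ≤ ‖t‖ ^ 2 :=
      pow_le_pow_left₀ (norm_nonneg _) (bk_norm_le _ _) 2
    have h3 := mul_le_mul_of_nonneg_left h1 (by positivity : 0 ≤ 2 * c ^ 2)
    have h4 := mul_le_mul_of_nonneg_left h2 (by positivity : 0 ≤ 2 * a ^ 2)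
    linarith
  have hPZ : ‖P - Z‖ ^ 2 ≤ 2 * c ^ 2 * ‖bk ((j : ℝ) + 1) g - W‖ ^ 2 +
      2 * a ^ 2 * ‖bk ((j : ℝ) + 1) t - U‖ ^ 2 := by
    have h1 : P - Z = c • T (bk ((j : ℝ) + 1) g - W) - a • (bk ((j : ℝ) + 1) t - U) := by
      rw [hP, hZ, map_sub, smul_sub, smul_sub]; abel
    rw [h1]
    exact comb_sq_le T hT a c _ _
  have hQP : ‖Q - P‖ ≤ (|c| * ‖g‖ ^ 2 + |a| * ‖t‖ ^ 2) / ((j : ℝ) + 1) := by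
    have h1 : Q - P = c • T (g - bk ((j : ℝ) + 1) g) - a • (t - bk ((j : ℝ) + 1) t) := by
      rw [hP, hQ, map_sub, smul_sub, smul_sub]; abel
    rw [h1]
    refine (norm_sub_le _ _).trans ?_
    rw [norm_smul, norm_smul, Real.norm_eq_abs, Real.norm_eq_abs]
    have h2 := mul_le_mul_of_nonneg_left ((hT (g - bk ((j : ℝ) + 1) g)).trans (bk_sub_le hj g))
      (abs_nonneg c)
    have h3 := mul_le_mul_of_nonneg_left (bk_sub_le hj t) (abs_nonneg a)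
    rw [add_div, mul_div_assoc, mul_div_assoc]
    linarith
  rw [← hQ, ← hZ]
  set d := bk ((k : ℝ) + 1) t - w with hd
  have hdn : ‖d‖ ≤ 2 * ((k : ℝ) + 1) := by
    have h1 := norm_sub_le (bk ((k : ℝ) + 1) t) w
    have h2 := bk_norm_le_k hk t
    rw [← hd] at h1
    linarith
  have hsplit : inner ℝ d (fderiv ℝ (bk ((k : ℝ) + 1)) t Q) =
      inner ℝ d (fderiv ℝ (bk ((k : ℝ) + 1)) t (Q - P)) +
      inner ℝ d (fderiv ℝ (bk ((k : ℝ) + 1)) t P - P) + inner ℝ d (P - Z) + inner ℝ d Z := by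
    rw [map_sub]
    simp only [inner_sub_right]
    ring
  have h1 : inner ℝ d (fderiv ℝ (bk ((k : ℝ) + 1)) t (Q - P)) ≤
      2 * ((k : ℝ) + 1) * ((|c| * ‖g‖ ^ 2 + |a| * ‖t‖ ^ 2) / ((j : ℝ) + 1)) := by
    refine (real_inner_le_norm _ _).trans ?_
    exact mul_le_mul hdn ((bk_fderiv_apply_norm _ t _).trans hQP) (norm_nonneg _) (by positivity)
  have h2 : 2 * inner ℝ d (P - Z) ≤ ‖d‖ ^ 2 + ‖P - Z‖ ^ 2 := by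
    have := real_inner_le_norm d (P - Z)
    nlinarith [sq_nonneg (‖d‖ - ‖P - Z‖)]
  have h3 : 4 * ((k : ℝ) + 1) / ((j : ℝ) + 1) * (|c| * ‖g‖ ^ 2 + |a| * ‖t‖ ^ 2) =
      2 * (2 * ((k : ℝ) + 1) * ((|c| * ‖g‖ ^ 2 + |a| * ‖t‖ ^ 2) / ((j : ℝ) + 1))) := by ring
  have h4 : 4 * ((l : ℝ) + 1) / ((k : ℝ) + 1) * (‖d‖ ^ 2 + ‖P‖ ^ 2) ≤
      4 * ((l : ℝ) + 1) / ((k : ℝ) + 1) *
        (‖d‖ ^ 2 + (2 * c ^ 2 * ‖g‖ ^ 2 + 2 * a ^ 2 * ‖t‖ ^ 2)) := by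
    apply mul_le_mul_of_nonneg_left _ (by positivity)
    linarith
  have h5 := mul_le_mul_of_nonneg_left hP2 hlam.le
  unfold errI
  rw [hsplit, h3, ← hd]
  linarith

end Pool.Agent.Helper1.JefP
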