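import Pool.Agent.Helper1.JefP.B

/-! # The integrated inequalities -/

open MeasureTheory Set Filter Topology
open scoped ENNReal ContDiff

namespace Pool.Agent.Helper1.JefP

open Pool.Agent.Helper42.Jef Pool.Agent.Helper22.Jef

variable {α : Type*} [MeasurableSpace α] {μ : Measure α}
variable {E : Type*} [NormedAddCommGroup E] [InnerProductSpace ℝ E]

theorem bk_mem {t : α → E} (ht : MemLp t 2 μ) (k : ℝ) : MemLp (fun x => bk k (t x)) 2 μ := by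
  refine ht.of_le ?_ (Eventually.of_forall fun x => bk_norm_le _ _)
  exact (bk_contDiff k).continuous.comp_aestronglyMeasurable ht.1

/-- the integrated error -/
noncomputable def errB (a c : ℝ) (k l j : ℕ) (lam N K1 K2 K3 K4 : ℝ) : ℝ :=
  4 * ((k : ℝ) + 1) / ((j : ℝ) + 1) * (|c| * K2 + |a| * K1) +
    4 * ((l : ℝ) + 1) / ((k : ℝ) + 1) *
      ((2 * K1 + 2 * K3) + (2 * c ^ 2 * K2 + 2 * a ^ 2 * K1)) +
    lam * (2 * c ^ 2 * K2 + 2 * a ^ 2 * K1) +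
    8 / lam * (K4 + N * (K1 / (2 * ((l : ℝ) + 1)) ^ 2))

theorem int_err (a c : ℝ) {t g w : α → E} (ht : MemLp t 2 μ) (hg : MemLp g 2 μ)
    (hw : MemLp w 2 μ) {A : α → ℝ} (hA : Integrable A μ) (hwA : ∀ᵐ x ∂μ, ‖w x‖ ^ 2 ≤ A x)
    {k l j : ℕ} {lam N : ℝ} (hlam : 0 < lam) (hN : 0 ≤ N) {K1 K2 : ℝ}
    (hK1 : ∫ x, ‖t x‖ ^ 2 ∂μ ≤ K1) (hK2 : ∫ x, ‖g x‖ ^ 2 ∂μ ≤ K2) :
    Integrable (fun x => errI a c k l j lam N (A x) (t x) (g x) (w x)) μ ∧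
    ∫ x, errI a c k l j lam N (A x) (t x) (g x) (w x) ∂μ ≤
      errB a c k l j lam N K1 K2 (∫ x, A x ∂μ) (∫ x, max (A x - N) 0 ∂μ) := by
  have it : Integrable (fun x => ‖t x‖ ^ 2) μ := l2_sq ht
  have ig : Integrable (fun x => ‖g x‖ ^ 2) μ := l2_sq hg
  have iv : Integrable (fun x => ‖bk ((k : ℝ) + 1) (t x) - w x‖ ^ 2) μ :=
    l2_sq ((bk_mem ht _).sub hw)
  have im : Integrable (fun x => max (A x - N) 0) μ := by
    refine (hA.abs).mono' ((hA.1.sub aestronglyMeasurable_const).sup aestronglyMeasurable_const) ?_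
    filter_upwards with x
    rw [Real.norm_eq_abs, abs_of_nonneg (le_max_right _ _)]
    refine max_le ?_ (abs_nonneg _)
    have := le_abs_self (A x)
    linarith
  have e1 : Integrable (fun x => |c| * ‖g x‖ ^ 2 + |a| * ‖t x‖ ^ 2) μ :=
    (ig.const_mul _).add (it.const_mul _)
  have e2 : Integrable (fun x => 2 * c ^ 2 * ‖g x‖ ^ 2 + 2 * a ^ 2 * ‖t x‖ ^ 2) μ :=
    (ig.const_mul _).add (it.const_mul _)
  have e3 : Integrable (fun x => ‖bk ((k : ℝ) + 1) (t x) - w x‖ ^ 2 +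
      (2 * c ^ 2 * ‖g x‖ ^ 2 + 2 * a ^ 2 * ‖t x‖ ^ 2)) μ := iv.add e2
  have e4 : Integrable (fun x => N * (‖t x‖ ^ 2 / (2 * ((l : ℝ) + 1)) ^ 2)) μ :=
    (it.div_const _).const_mul _
  have e5 : Integrable (fun x => max (A x - N) 0 +
      N * (‖t x‖ ^ 2 / (2 * ((l : ℝ) + 1)) ^ 2)) μ := im.add e4
  have f1 : Integrable (fun x => 4 * ((k : ℝ) + 1) / ((j : ℝ) + 1) *
      (|c| * ‖g x‖ ^ 2 + |a| * ‖t x‖ ^ 2)) μ := e1.const_mul _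
  have f2 : Integrable (fun x => 4 * ((l : ℝ) + 1) / ((k : ℝ) + 1) *
      (‖bk ((k : ℝ) + 1) (t x) - w x‖ ^ 2 +
      (2 * c ^ 2 * ‖g x‖ ^ 2 + 2 * a ^ 2 * ‖t x‖ ^ 2))) μ := e3.const_mul _
  have f3 : Integrable (fun x => lam *
      (2 * c ^ 2 * ‖g x‖ ^ 2 + 2 * a ^ 2 * ‖t x‖ ^ 2)) μ := e2.const_mul _
  have f4 : Integrable (fun x => 8 / lam * (max (A x - N) 0 +
      N * (‖t x‖ ^ 2 / (2 * ((l : ℝ) + 1)) ^ 2))) μ := e5.const_mul _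
  have f12 : Integrable (fun x => 4 * ((k : ℝ) + 1) / ((j : ℝ) + 1) *
      (|c| * ‖g x‖ ^ 2 + |a| * ‖t x‖ ^ 2) + 4 * ((l : ℝ) + 1) / ((k : ℝ) + 1) *
      (‖bk ((k : ℝ) + 1) (t x) - w x‖ ^ 2 +
      (2 * c ^ 2 * ‖g x‖ ^ 2 + 2 * a ^ 2 * ‖t x‖ ^ 2))) μ := f1.add f2
  have f123 : Integrable (fun x => 4 * ((k : ℝ) + 1) / ((j : ℝ) + 1) *
      (|c| * ‖g x‖ ^ 2 + |a| * ‖t x‖ ^ 2) + 4 * ((l : ℝ) + 1) / ((k : ℝ) + 1) *
      (‖bk ((k : ℝ) + 1) (t x) - w x‖ ^ 2 +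
      (2 * c ^ 2 * ‖g x‖ ^ 2 + 2 * a ^ 2 * ‖t x‖ ^ 2)) + lam *
      (2 * c ^ 2 * ‖g x‖ ^ 2 + 2 * a ^ 2 * ‖t x‖ ^ 2)) μ := f12.add f3
  refine ⟨f123.add f4, ?_⟩
  unfold errI
  rw [integral_add f123 f4, integral_add f12 f3, integral_add f1 f2, integral_const_mul,
    integral_const_mul, integral_const_mul, integral_const_mul, integral_add im e4,
    integral_const_mul, integral_div, integral_add iv e2, integral_add (ig.const_mul _)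
    (it.const_mul _), integral_add (ig.const_mul _) (it.const_mul _), integral_const_mul,
    integral_const_mul, integral_const_mul, integral_const_mul]
  have hv : ∫ x, ‖bk ((k : ℝ) + 1) (t x) - w x‖ ^ 2 ∂μ ≤ 2 * K1 + 2 * ∫ x, A x ∂μ := by
    have h1 : ∫ x, ‖bk ((k : ℝ) + 1) (t x) - w x‖ ^ 2 ∂μ ≤ ∫ x, (2 * ‖t x‖ ^ 2 + 2 * A x) ∂μ := by
      refine integral_mono_ae iv ((it.const_mul 2).add (hA.const_mul 2)) ?_
      filter_upwards [hwA] with x hx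
      have h2 := norm_sub_le (bk ((k : ℝ) + 1) (t x)) (w x)
      have h3 := bk_norm_le ((k : ℝ) + 1) (t x)
      have h4 : ‖bk ((k : ℝ) + 1) (t x) - w x‖ ≤ ‖t x‖ + ‖w x‖ := by linarith
      have h5 : ‖bk ((k : ℝ) + 1) (t x) - w x‖ ^ 2 ≤ (‖t x‖ + ‖w x‖) ^ 2 :=
        pow_le_pow_left₀ (norm_nonneg _) h4 2
      nlinarith [sq_nonneg (‖t x‖ - ‖w x‖)]
    rw [integral_add (it.const_mul 2) (hA.const_mul 2), integral_const_mul,
      integral_const_mul] at h1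
    linarith
  unfold errB
  gcongr

/-- the damping/stretching part -/
theorem intI (T : E →L[ℝ] E) (hT : ∀ x, ‖T x‖ ≤ ‖x‖) (a c : ℝ) {t g U W w : α → E}
    (ht : MemLp t 2 μ) (hg : MemLp g 2 μ) (hU : MemLp U 2 μ) (hW : MemLp W 2 μ)
    (hw : MemLp w 2 μ) {A : α → ℝ} (hA : Integrable A μ) (hwA : ∀ᵐ x ∂μ, ‖w x‖ ^ 2 ≤ A x)
    {k l j : ℕ} (hwk : ∀ᵐ x ∂μ, ‖w x‖ ≤ (k : ℝ) + 1) (hkj : k ≤ j)
    (hlj : 2 * (l + 1) ≤ j + 1) {lam N : ℝ} (hlam : 0 < lam) (hN : 0 ≤ N)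
    {K1 K2 : ℝ} (hK1 : ∫ x, ‖t x‖ ^ 2 ∂μ ≤ K1) (hK2 : ∫ x, ‖g x‖ ^ 2 ∂μ ≤ K2)
    (hD : MemLp (fun x => fderiv ℝ (bk ((k : ℝ) + 1)) (t x) (c • T (g x) - a • t x)) 2 μ)
    {B : Set α} (hB : MeasurableSet B) {ζ : α → ℝ} (hζm : Measurable ζ)
    {L : ℝ} (hζ : ∀ x, 0 ≤ ζ x ∧ ζ x ≤ L) (hζB : ∀ x, x ∉ B → ζ x = 0) (hL : 0 ≤ L) :
    ∫ x, ζ x * (2 * inner ℝ (bk ((k : ℝ) + 1) (t x) - w x)
      (fderiv ℝ (bk ((k : ℝ) + 1)) (t x) (c • T (g x) - a • t x))) ∂μ ≤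
      L * errB a c k l j lam N K1 K2 (∫ x, A x ∂μ) (∫ x, max (A x - N) 0 ∂μ) +
      L * (16 / lam) * (∫ x in B, (‖bk ((j : ℝ) + 1) (t x)‖ ^ 2 -
        ‖bk ((l : ℝ) + 1) (t x)‖ ^ 2) ∂μ) +
      ∫ x, ζ x * ‖bk ((k : ℝ) + 1) (t x) - w x‖ ^ 2 ∂μ +
      (2 * c ^ 2 * ∫ x, ζ x * ‖bk ((j : ℝ) + 1) (g x) - W x‖ ^ 2 ∂μ +
        2 * a ^ 2 * ∫ x, ζ x * ‖bk ((j : ℝ) + 1) (t x) - U x‖ ^ 2 ∂μ) +
      2 * ∫ x, inner ℝ (bk ((k : ℝ) + 1) (t x) - w x)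
        (ζ x • (c • T (W x) - a • U x)) ∂μ := by
  have hζa : AEStronglyMeasurable ζ μ := hζm.aestronglyMeasurable
  have hζb : ∀ᵐ x ∂μ, |ζ x| ≤ L := Eventually.of_forall fun x => by
    rw [abs_of_nonneg (hζ x).1]; exact (hζ x).2
  obtain ⟨ie, he⟩ := int_err (k := k) (l := l) (j := j) a c ht hg hw hA hwA hlam hN hK1 hK2
  have hd : MemLp (fun x => bk ((k : ℝ) + 1) (t x) - w x) 2 μ := (bk_mem ht _).sub hw
  have hTW : MemLp (fun x => c • T (W x) - a • U x) 2 μ :=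
    ((T.comp_memLp' hW).const_smul c).sub (hU.const_smul a)
  have i0 : Integrable (fun x => ζ x * (2 * inner ℝ (bk ((k : ℝ) + 1) (t x) - w x)
      (fderiv ℝ (bk ((k : ℝ) + 1)) (t x) (c • T (g x) - a • t x)))) μ :=
    wint hζa hζb ((l2_inner hd hD).const_mul 2)
  have i1 : Integrable (fun x => L * errI a c k l j lam N (A x) (t x) (g x) (w x)) μ :=
    ie.const_mul L
  have ib : Integrable (fun x => ‖bk ((j : ℝ) + 1) (t x)‖ ^ 2 -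
      ‖bk ((l : ℝ) + 1) (t x)‖ ^ 2) μ := (l2_sq (bk_mem ht _)).sub (l2_sq (bk_mem ht _))
  have i2 : Integrable (fun x => L * (16 / lam) * B.indicator (fun x =>
      ‖bk ((j : ℝ) + 1) (t x)‖ ^ 2 - ‖bk ((l : ℝ) + 1) (t x)‖ ^ 2) x) μ :=
    (ib.indicator hB).const_mul _
  have i3 : Integrable (fun x => ζ x * ‖bk ((k : ℝ) + 1) (t x) - w x‖ ^ 2) μ :=
    wint hζa hζb (l2_sq hd)
  have i4 : Integrable (fun x => ζ x * ‖bk ((j : ℝ) + 1) (g x) - W x‖ ^ 2) μ :=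
    wint hζa hζb (l2_sq ((bk_mem hg _).sub hW))
  have i5 : Integrable (fun x => ζ x * ‖bk ((j : ℝ) + 1) (t x) - U x‖ ^ 2) μ :=
    wint hζa hζb (l2_sq ((bk_mem ht _).sub hU))
  have i45 : Integrable (fun x => 2 * c ^ 2 * (ζ x * ‖bk ((j : ℝ) + 1) (g x) - W x‖ ^ 2) +
      2 * a ^ 2 * (ζ x * ‖bk ((j : ℝ) + 1) (t x) - U x‖ ^ 2)) μ :=
    (i4.const_mul _).add (i5.const_mul _)
  have i6 : Integrable (fun x => 2 * inner ℝ (bk ((k : ℝ) + 1) (t x) - w x)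
        (ζ x • (c • T (W x) - a • U x))) μ :=
    (l2_inner hd (wsmul_mem hζa hζb hTW)).const_mul 2
  have i12 : Integrable (fun x => L * errI a c k l j lam N (A x) (t x) (g x) (w x) +
      L * (16 / lam) * B.indicator (fun x =>
      ‖bk ((j : ℝ) + 1) (t x)‖ ^ 2 - ‖bk ((l : ℝ) + 1) (t x)‖ ^ 2) x) μ := i1.add i2
  have i123 : Integrable (fun x => L * errI a c k l j lam N (A x) (t x) (g x) (w x) +
      L * (16 / lam) * B.indicator (fun x =>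
      ‖bk ((j : ℝ) + 1) (t x)‖ ^ 2 - ‖bk ((l : ℝ) + 1) (t x)‖ ^ 2) x +
      ζ x * ‖bk ((k : ℝ) + 1) (t x) - w x‖ ^ 2) μ := i12.add i3
  have i1235 : Integrable (fun x => L * errI a c k l j lam N (A x) (t x) (g x) (w x) +
      L * (16 / lam) * B.indicator (fun x =>
      ‖bk ((j : ℝ) + 1) (t x)‖ ^ 2 - ‖bk ((l : ℝ) + 1) (t x)‖ ^ 2) x +
      ζ x * ‖bk ((k : ℝ) + 1) (t x) - w x‖ ^ 2 +
      (2 * c ^ 2 * (ζ x * ‖bk ((j : ℝ) + 1) (g x) - W x‖ ^ 2) +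
      2 * a ^ 2 * (ζ x * ‖bk ((j : ℝ) + 1) (t x) - U x‖ ^ 2))) μ := i123.add i45
  have hmain := integral_mono_ae i0 (i1235.add i6) (by
    filter_upwards [hwA, hwk] with x hx hxk
    simp only [Pi.add_apply]
    have h1 := ptI T hT a c (U x) (W x) (t := t x) (g := g x) (w := w x) hkj hlj hlam hN hx hxk
    have h2 := errI_nonneg a c k l j (A := A x) hlam hN (t x) (g x) (w x)
    have hl : (0 : ℝ) < (l : ℝ) + 1 := by positivity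
    have hlj2 : (l : ℝ) + 1 ≤ (j : ℝ) + 1 := by
      have hlj' : 2 * ((l : ℝ) + 1) ≤ (j : ℝ) + 1 := by exact_mod_cast hlj
      linarith
    have hbm : ‖bk ((l : ℝ) + 1) (t x)‖ ^ 2 ≤ ‖bk ((j : ℝ) + 1) (t x)‖ ^ 2 :=
      pow_le_pow_left₀ (norm_nonneg _) (bk_mono hl hlj2 (t x)) 2
    have h3 : 0 ≤ 16 / lam * (‖bk ((j : ℝ) + 1) (t x)‖ ^ 2 -
      ‖bk ((l : ℝ) + 1) (t x)‖ ^ 2) := by
      apply mul_nonneg (by positivity); linarith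
    by_cases hxB : x ∈ B
    · rw [indicator_of_mem hxB, inner_smul_right]
      have h4 := mul_le_mul_of_nonneg_left h1 (hζ x).1
      have h5 := mul_le_mul_of_nonneg_right (hζ x).2 (add_nonneg h2 h3)
      nlinarith
    · rw [indicator_of_notMem hxB, hζB x hxB]
      simp only [zero_mul, zero_smul, inner_zero_right, mul_zero, add_zero]
      positivity)
  simp only [Pi.add_apply] at hmain
  rw [integral_add i1235 i6, integral_add i123 i45, integral_add i12 i3, integral_add i1 i2,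
    integral_const_mul, integral_const_mul, integral_indicator hB,
    integral_add (i4.const_mul _) (i5.const_mul _), integral_const_mul, integral_const_mul,
    integral_const_mul] at hmain
  have h7 := mul_le_mul_of_nonneg_left he hL
  linarith

end Pool.Agent.Helper1.JefP
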