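import Pool.Agent.Helper1.JefP.C

/-! # The spin part and the limit `m → ∞` -/

open MeasureTheory Set Filter Topology
open scoped ENNReal ContDiff

namespace Pool.Agent.Helper1.JefP

open Pool.Agent.Helper42.Jef Pool.Agent.Helper22.Jef

variable {n : ℕ}

theorem inner_br_polar (A B W : Mt n) (hW : tr W = -W) :
    inner ℝ (br A W) B = - inner ℝ (br B W) A := by
  have h1 := inner_br (A + B) W hW
  rw [br_add_left, inner_add_left, inner_add_right, inner_add_right, inner_br A W hW,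
    inner_br B W hW] at h1
  linarith

theorem ptII {v w s s1 s2 G0 : Mt n} {K : ℝ} (hK : 0 ≤ K) (hw : ‖w‖ ≤ K) (hv : ‖v‖ ≤ K)
    (hs : s = s1 + s2) (hsa : tr s = -s) (hG : tr G0 = -G0) :
    2 * inner ℝ w (br v s) ≤ 8 * K ^ 2 * ‖s2‖ + 2 * (‖w‖ ^ 2 * ‖v - w‖ ^ 2) +
      2 * ‖s1 - G0‖ ^ 2 + 2 * inner ℝ (v - w) (-br w G0) := by
  have h0 : inner ℝ w (br v s) = inner ℝ w (br (v - w) s) := by
    rw [br_sub_left, inner_sub_right, real_inner_comm (br w s) w, inner_br w s hsa, sub_zero]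
  have h1 : br (v - w) s = br (v - w) s2 + br (v - w) (s1 - G0) + br (v - w) G0 := by
    rw [hs, br_add_right, br_sub_right]; abel
  have h2 : inner ℝ w (br (v - w) G0) = inner ℝ (v - w) (-br w G0) := by
    rw [real_inner_comm, inner_br_polar _ _ _ hG, real_inner_comm, inner_neg_right]
  have h3 : inner ℝ w (br (v - w) s2) ≤ 4 * K ^ 2 * ‖s2‖ := by
    refine (real_inner_le_norm _ _).trans ?_
    have h4 := norm_br_le (v - w) s2
    have h5 : ‖v - w‖ ≤ 2 * K := (norm_sub_le _ _).trans (by linarith)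
    calc ‖w‖ * ‖br (v - w) s2‖ ≤ K * (2 * ((2 * K) * ‖s2‖)) := by
          refine mul_le_mul hw (h4.trans ?_) (norm_nonneg _) hK
          have := mul_le_mul_of_nonneg_right h5 (norm_nonneg s2)
          linarith
      _ = _ := by ring
  have h6 : 2 * inner ℝ w (br (v - w) (s1 - G0)) ≤
      2 * (‖w‖ ^ 2 * ‖v - w‖ ^ 2) + 2 * ‖s1 - G0‖ ^ 2 := by
    have h7 := real_inner_le_norm w (br (v - w) (s1 - G0))
    have h8 := mul_le_mul_of_nonneg_left (norm_br_le (v - w) (s1 - G0)) (norm_nonneg w)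
    nlinarith [sq_nonneg (‖w‖ * ‖v - w‖ - ‖s1 - G0‖)]
  rw [h0, h1, inner_add_right, inner_add_right, h2]
  linarith

theorem tr_sp' (A : Mt n) : tr (sp A) = - sp A := tr_sp A

variable {α : Type*} [MeasurableSpace α] {μ : Measure α}

theorem br_mem {w G : α → Mt n} (hw : MemLp w 2 μ) (hG : MemLp G 2 μ) {K : ℝ}
    (hwk : ∀ᵐ x ∂μ, ‖w x‖ ≤ K) : MemLp (fun x => -br (w x) (sp (G x))) 2 μ := by
  have h1 : MemLp (fun x => sp (G x)) 2 μ := (spL n).comp_memLp' hG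
  refine h1.of_le_mul (c := 2 * K) ?_ ?_
  · exact ((brL n).aestronglyMeasurable_comp₂ hw.1 h1.1).neg
  · filter_upwards [hwk] with x hx
    rw [norm_neg]
    refine (norm_br_le _ _).trans ?_
    have := mul_le_mul_of_nonneg_right hx (norm_nonneg (sp (G x)))
    linarith

/-- the spin part -/
theorem intII {t w G S S1 S2 : α → Mt n} (ht : MemLp t 2 μ) (hw : MemLp w 2 μ)
    (hG : MemLp G 2 μ) {k : ℕ} (hwk : ∀ᵐ x ∂μ, ‖w x‖ ≤ (k : ℝ) + 1)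
    (hSa : ∀ᵐ x ∂μ, tr (S x) = - S x) (hS : S =ᵐ[μ] fun x => S1 x + S2 x)
    (hS1 : MemLp S1 2 μ) (hS2 : Integrable S2 μ) {Y : ℝ} (hY : ∫ x, ‖S2 x‖ ∂μ ≤ Y)
    (hbr : MemLp (fun x => br (bk ((k : ℝ) + 1) (t x)) (S x)) 2 μ)
    {ζ : α → ℝ} (hζm : Measurable ζ) {L : ℝ} (hζ : ∀ x, 0 ≤ ζ x ∧ ζ x ≤ L) (hL : 0 ≤ L) :
    ∫ x, ζ x * (2 * inner ℝ (w x) (br (bk ((k : ℝ) + 1) (t x)) (S x))) ∂μ ≤
      L * (8 * ((k : ℝ) + 1) ^ 2) * Y +
      2 * (∫ x, (ζ x * ‖w x‖ ^ 2) * ‖bk ((k : ℝ) + 1) (t x) - w x‖ ^ 2 ∂μ) +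
      2 * (∫ x, ζ x * ‖S1 x - sp (G x)‖ ^ 2 ∂μ) +
      2 * ∫ x, inner ℝ (bk ((k : ℝ) + 1) (t x) - w x) (ζ x • (-br (w x) (sp (G x)))) ∂μ := by
  have hζa : AEStronglyMeasurable ζ μ := hζm.aestronglyMeasurable
  have hζb : ∀ᵐ x ∂μ, |ζ x| ≤ L := Eventually.of_forall fun x => by
    rw [abs_of_nonneg (hζ x).1]; exact (hζ x).2
  have hk : (0 : ℝ) < (k : ℝ) + 1 := by positivity
  have hd : MemLp (fun x => bk ((k : ℝ) + 1) (t x) - w x) 2 μ := (bk_mem ht _).sub hw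
  have hsG : MemLp (fun x => sp (G x)) 2 μ := (spL n).comp_memLp' hG
  have i0 : Integrable (fun x => ζ x * (2 * inner ℝ (w x)
      (br (bk ((k : ℝ) + 1) (t x)) (S x)))) μ := wint hζa hζb ((l2_inner hw hbr).const_mul 2)
  have i1 : Integrable (fun x => L * (8 * ((k : ℝ) + 1) ^ 2) * ‖S2 x‖) μ := hS2.norm.const_mul _
  have hζw : ∀ᵐ x ∂μ, |ζ x * ‖w x‖ ^ 2| ≤ L * ((k : ℝ) + 1) ^ 2 := by
    filter_upwards [hζb, hwk] with x h1 h2
    rw [abs_mul, abs_of_nonneg (sq_nonneg ‖w x‖)]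
    exact mul_le_mul h1 (pow_le_pow_left₀ (norm_nonneg _) h2 2) (sq_nonneg _) hL
  have i2 : Integrable (fun x => 2 * ((ζ x * ‖w x‖ ^ 2) *
      ‖bk ((k : ℝ) + 1) (t x) - w x‖ ^ 2)) μ :=
    (wint (hζa.mul (l2_sq hw).1) hζw (l2_sq hd)).const_mul 2
  have i3 : Integrable (fun x => 2 * (ζ x * ‖S1 x - sp (G x)‖ ^ 2)) μ :=
    (wint hζa hζb (l2_sq (hS1.sub hsG))).const_mul 2
  have i4 : Integrable (fun x => 2 * inner ℝ (bk ((k : ℝ) + 1) (t x) - w x)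
      (ζ x • (-br (w x) (sp (G x))))) μ :=
    (l2_inner hd (wsmul_mem hζa hζb (br_mem hw hG hwk))).const_mul 2
  have i12 : Integrable (fun x => L * (8 * ((k : ℝ) + 1) ^ 2) * ‖S2 x‖ +
      2 * ((ζ x * ‖w x‖ ^ 2) * ‖bk ((k : ℝ) + 1) (t x) - w x‖ ^ 2)) μ := i1.add i2
  have i123 : Integrable (fun x => L * (8 * ((k : ℝ) + 1) ^ 2) * ‖S2 x‖ +
      2 * ((ζ x * ‖w x‖ ^ 2) * ‖bk ((k : ℝ) + 1) (t x) - w x‖ ^ 2) +
      2 * (ζ x * ‖S1 x - sp (G x)‖ ^ 2)) μ := i12.add i3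
  have hmain := integral_mono_ae i0 (i123.add i4) (by
    filter_upwards [hwk, hSa, hS] with x h1 h2 h3
    simp only [Pi.add_apply]
    have h4 := ptII (v := bk ((k : ℝ) + 1) (t x)) (w := w x) (G0 := sp (G x)) hk.le h1
      (bk_norm_le_k hk (t x)) h3 h2 (tr_sp _)
    rw [inner_smul_right]
    have h5 := mul_le_mul_of_nonneg_left h4 (hζ x).1
    have h6 : ζ x * (8 * ((k : ℝ) + 1) ^ 2 * ‖S2 x‖) ≤ L * (8 * ((k : ℝ) + 1) ^ 2 * ‖S2 x‖) :=
      mul_le_mul_of_nonneg_right (hζ x).2 (by positivity)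
    nlinarith)
  simp only [Pi.add_apply] at hmain
  rw [integral_add i123 i4, integral_add i12 i3, integral_add i1 i2, integral_const_mul,
    integral_const_mul, integral_const_mul, integral_const_mul] at hmain
  have h7 := mul_le_mul_of_nonneg_left hY
    (mul_nonneg hL (by positivity : (0 : ℝ) ≤ 8 * ((k : ℝ) + 1) ^ 2))
  linarith

end Pool.Agent.Helper1.JefP
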