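import Pool.Agent.Helper1.JefP.D

/-! # The key inequality `lemmaP` -/

open MeasureTheory Set Filter Topology
open scoped ENNReal ContDiff

namespace Pool.Agent.Helper1.JefP

open Pool.Agent.Helper42.Jef Pool.Agent.Helper22.Jef

variable {n : ℕ}

/-- the inequality after `m → ∞`, at level `j` -/
theorem level_j {τs Gs : ℕ → ST n → Mt n} {τ G : ST n → Mt n} {tk gk : ℕ → ST n → Mt n}
    {ta ga : ℕ → ST n → ℝ} (hτ : TV volume τs τ tk ta) (hG : TV volume Gs G gk ga)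
    {a c M : ℝ} {A : ST n → ℝ} (hA : Integrable A)
    (hb : ∀ᵐ x, ∀ k, ‖tk k x‖ ^ 2 ≤ ta k x ∧ ta k x ≤ A x ∧ ‖tk k x‖ ≤ k + 1)
    (htai : ∀ k, Integrable (ta k))
    {S : ℕ → ST n → Mt n} (hSa : ∀ m, ∀ᵐ z, tr (S m z) = - S m z)
    (hSp : SpinProp S G gk ga M) {F D : ℕ → ST n → Mt n} {Q : ℕ → ST n → ℝ}
    (hF : ∀ k : ℕ, WC volume (fun m z => fderiv ℝ (bk ((k : ℝ) + 1)) (τs m z)
      (c • sy (Gs m z) - a • τs m z)) (F k))
    (hD : ∀ k : ℕ, WC volume (fun m z => br (bk ((k : ℝ) + 1) (τs m z)) (S m z)) (D k))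
    (hQ : ∀ k : ℕ, WC volume (fun m z => 2 * inner ℝ (bk ((k : ℝ) + 1) (τs m z))
      (fderiv ℝ (bk ((k : ℝ) + 1)) (τs m z) (c • sy (Gs m z) - a • τs m z))) (Q k))
    {K1 K2 : ℝ} (hK1 : ∀ m, ∫ x, ‖τs m x‖ ^ 2 ≤ K1) (hK2 : ∀ m, ∫ x, ‖Gs m x‖ ^ 2 ≤ K2)
    {B : Set (ST n)} (hB : MeasurableSet B) (hBf : volume B < ⊤) {k l j : ℕ} (hkj : k ≤ j)
    (hlj : 2 * (l + 1) ≤ j + 1) {lam N : ℝ} (hlam : 0 < lam) (hN : 0 ≤ N)
    {ζ : ST n → ℝ} {L : ℝ} (hζm : Measurable ζ) (hζ : ∀ z, 0 ≤ ζ z ∧ ζ z ≤ L)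
    (hζB : ∀ z, z ∉ B → ζ z = 0) :
    ∫ z, ζ z * (Q k z - 2 * inner ℝ (tk k z) (F k z - D k z)) ≤
      L * errB a c k l j lam N K1 K2 (∫ x, A x) (∫ x, max (A x - N) 0) +
      L * (16 / lam) * (∫ x, |A x - ta l x|) +
      (∫ x, ζ x * (ta k x - ‖tk k x‖ ^ 2)) +
      (2 * c ^ 2 * (∫ x, ζ x * (ga j x - 2 * inner ℝ (gk j x) (G x) + ‖G x‖ ^ 2)) +
        2 * a ^ 2 * (∫ x, ζ x * (ta j x - 2 * inner ℝ (tk j x) (τ x) + ‖τ x‖ ^ 2))) +
      L * (8 * ((k : ℝ) + 1) ^ 2) * (M / ((j : ℝ) + 1)) +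
      2 * (∫ x, (ζ x * ‖tk k x‖ ^ 2) * (ta k x - ‖tk k x‖ ^ 2)) +
      2 * (∫ x, ζ x * (ga j x - 2 * inner ℝ (gk j x) (G x) + ‖G x‖ ^ 2)) := by
  have hL : 0 ≤ L := (hζ 0).1.trans (hζ 0).2
  have hζa : AEStronglyMeasurable ζ volume := hζm.aestronglyMeasurable
  have hζb : ∀ᵐ x, |ζ x| ≤ L := Eventually.of_forall fun x => by
    rw [abs_of_nonneg (hζ x).1]; exact (hζ x).2
  have hζ2 : MemLp ζ 2 volume := by
    have h1 : MemLp (B.indicator fun _ => L) 2 (volume : Measure (ST n)) :=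
      memLp_indicator_const 2 hB L (Or.inr hBf.ne)
    refine h1.of_le hζa (Eventually.of_forall fun x => ?_)
    by_cases hx : x ∈ B
    · rw [indicator_of_mem hx, Real.norm_of_nonneg (hζ x).1, Real.norm_of_nonneg hL]
      exact (hζ x).2
    · rw [indicator_of_notMem hx, hζB x hx]
  have hwk : ∀ᵐ x, ‖tk k x‖ ≤ (k : ℝ) + 1 := by
    filter_upwards [hb] with x hx
    exact (hx k).2.2
  have hwA : ∀ᵐ x, ‖tk k x‖ ^ 2 ≤ A x := by
    filter_upwards [hb] with x hx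
    exact (hx k).1.trans (hx k).2.1
  have hw : MemLp (tk k) 2 volume := (hτ.wk k).memU
  have hζw : ∀ᵐ x, |ζ x * ‖tk k x‖ ^ 2| ≤ L * ((k : ℝ) + 1) ^ 2 := by
    filter_upwards [hζb, hwk] with x h1 h2
    rw [abs_mul, abs_of_nonneg (sq_nonneg ‖tk k x‖)]
    exact mul_le_mul h1 (pow_le_pow_left₀ (norm_nonneg _) h2 2) (sq_nonneg _) hL
  have hζw2 : MemLp (fun x => ζ x * ‖tk k x‖ ^ 2) 2 volume := by
    refine hζ2.of_le_mul (c := ((k : ℝ) + 1) ^ 2) (hζa.mul (l2_sq hw).1) ?_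
    filter_upwards [hwk] with x hx
    rw [norm_mul, Real.norm_of_nonneg (sq_nonneg ‖tk k x‖), mul_comm]
    exact mul_le_mul_of_nonneg_right (pow_le_pow_left₀ (norm_nonneg _) hx 2) (norm_nonneg _)
  obtain ⟨S1, S2, hS, hS1, -, hS2, hS2b, hSv⟩ := hSp j
  -- the left hand side
  have hζtk : MemLp (fun x => ζ x • tk k x) 2 volume := wsmul_mem hζa hζb hw
  have key : ∀ {q : ST n → ℝ} {f d : ST n → Mt n}, MemLp q 2 volume → MemLp f 2 volume →
      MemLp d 2 volume →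
      ∫ z, ζ z * (q z - 2 * inner ℝ (tk k z) (f z - d z)) =
        (∫ z, inner ℝ (q z) (ζ z)) - 2 * (∫ z, inner ℝ (f z) (ζ z • tk k z)) +
          2 * (∫ z, inner ℝ (d z) (ζ z • tk k z)) := by
    intro q f d hq hf hd
    have i1 : Integrable (fun z => inner ℝ (q z) (ζ z)) volume := l2_inner hq hζ2
    have i2 : Integrable (fun z => 2 * inner ℝ (f z) (ζ z • tk k z)) volume :=
      (l2_inner hf hζtk).const_mul 2
    have i3 : Integrable (fun z => 2 * inner ℝ (d z) (ζ z • tk k z)) volume :=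
      (l2_inner hd hζtk).const_mul 2
    have i12 : Integrable (fun z => inner ℝ (q z) (ζ z) -
      2 * inner ℝ (f z) (ζ z • tk k z)) volume := i1.sub i2
    rw [← integral_const_mul, ← integral_const_mul, ← integral_sub i1 i2, ← integral_add i12 i3]
    refine integral_congr_ae (Eventually.of_forall fun x => ?_)
    simp only [inner_smul_right, RCLike.inner_apply, conj_trivial, inner_sub_right]
    rw [real_inner_comm (tk k x) (f x), real_inner_comm (tk k x) (d x)]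
    ring
  have hlim : Tendsto (fun m => ∫ z, ζ z * (2 * inner ℝ (bk ((k : ℝ) + 1) (τs m z))
      (fderiv ℝ (bk ((k : ℝ) + 1)) (τs m z) (c • sy (Gs m z) - a • τs m z)) -
      2 * inner ℝ (tk k z) (fderiv ℝ (bk ((k : ℝ) + 1)) (τs m z)
        (c • sy (Gs m z) - a • τs m z) - br (bk ((k : ℝ) + 1) (τs m z)) (S m z)))) atTop
      (𝓝 (∫ z, ζ z * (Q k z - 2 * inner ℝ (tk k z) (F k z - D k z)))) := by
    rw [key (hQ k).memU (hF k).memU (hD k).memU]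
    have h1 := (hQ k).conv ζ hζ2
    have h2 := ((hF k).conv _ hζtk).const_mul 2
    have h3 := ((hD k).conv _ hζtk).const_mul 2
    refine ((h1.sub h2).add h3).congr (fun m => ?_)
    exact (key ((hQ k).mem m) ((hF k).mem m) ((hD k).mem m)).symm
  -- the right hand side
  have r1 : Tendsto (fun m => ∫ x in B, (‖bk ((j : ℝ) + 1) (τs m x)‖ ^ 2 -
      ‖bk ((l : ℝ) + 1) (τs m x)‖ ^ 2)) atTop (𝓝 (∫ x in B, (ta j x - ta l x))) :=
    wc_set_real (wc_sub (hτ.wa j) (hτ.wa l)) hB hBf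
  have r2 := var_lim (hτ.wk k) (hτ.wa k) (hτ.wk k).memU hζ2 hζb
  have r3 := var_lim (hG.wk j) (hG.wa j) hG.w.memU hζ2 hζb
  have r4 := var_lim (hτ.wk j) (hτ.wa j) hτ.w.memU hζ2 hζb
  have r5 : Tendsto (fun m => ∫ x, inner ℝ (bk ((k : ℝ) + 1) (τs m x) - tk k x)
      (ζ x • (c • syL n (G x) - a • τ x))) atTop (𝓝 0) := by
    refine zero_lim (hτ.wk k) (wsmul_mem hζa hζb ?_)
    exact ((((syL n).comp_memLp' hG.w.memU).const_smul c).sub (hτ.w.memU.const_smul a))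
  have r6 := var_lim (hτ.wk k) (hτ.wa k) (hτ.wk k).memU hζw2 hζw
  have r7 : Tendsto (fun m => ∫ x, inner ℝ (bk ((k : ℝ) + 1) (τs m x) - tk k x)
      (ζ x • (-br (tk k x) (sp (G x))))) atTop (𝓝 0) :=
    zero_lim (hτ.wk k) (wsmul_mem hζa hζb (br_mem hw hG.w.memU hwk))
  have e2 : ∫ x, ζ x * (ta k x - 2 * inner ℝ (tk k x) (tk k x) + ‖tk k x‖ ^ 2) =
      ∫ x, ζ x * (ta k x - ‖tk k x‖ ^ 2) := by
    refine integral_congr_ae (Eventually.of_forall fun x => ?_)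
    simp only [real_inner_self_eq_norm_sq]
    ring
  have e6 : ∫ x, (ζ x * ‖tk k x‖ ^ 2) *
      (ta k x - 2 * inner ℝ (tk k x) (tk k x) + ‖tk k x‖ ^ 2) =
      ∫ x, (ζ x * ‖tk k x‖ ^ 2) * (ta k x - ‖tk k x‖ ^ 2) := by
    refine integral_congr_ae (Eventually.of_forall fun x => ?_)
    simp only [real_inner_self_eq_norm_sq]
    ring
  rw [e2] at r2
  rw [e6] at r6
  set X := ∫ x, ζ x * (ga j x - 2 * inner ℝ (gk j x) (G x) + ‖G x‖ ^ 2) with hX
  refine le_of_forall_pos_le_add (fun ε hε => ?_)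
  have hr := ((((((r1.const_mul (L * (16 / lam))).const_add (L * errB a c k l j lam N K1 K2
    (∫ x, A x) (∫ x, max (A x - N) 0))).add r2).add
    ((r3.const_mul (2 * c ^ 2)).add (r4.const_mul (2 * a ^ 2)))).add (r5.const_mul 2)).add
    (((r6.const_mul 2).const_add (L * (8 * ((k : ℝ) + 1) ^ 2) * (M / ((j : ℝ) + 1)))).add
      (r7.const_mul 2))).add_const (2 * (X + ε / 2))
  have hle := le_of_tendsto_of_tendsto hlim hr (by
    filter_upwards [hSv ζ L hζm hζ hζ2 (ε / 2) (by linarith)] with m hm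
    have p1 := intI (syL n) (fun x => norm_sy_le x) a c (hτ.w.mem m) (hG.w.mem m) hτ.w.memU
      hG.w.memU hw hA hwA hwk hkj hlj hlam hN (hK1 m) (hK2 m) ((hF k).mem m) hB hζm hζ hζB hL
    have p2 := intII (hτ.w.mem m) hw hG.w.memU hwk (hSa m) (hS m) (hS1 m) (hS2 m) (hS2b m)
      ((hD k).mem m) hζm hζ hL
    have hd : MemLp (fun x => bk ((k : ℝ) + 1) (τs m x) - tk k x) 2 volume :=
      (bk_mem (hτ.w.mem m) _).sub hw
    have q1 : Integrable (fun x => ζ x * (2 * inner ℝ (bk ((k : ℝ) + 1) (τs m x) - tk k x)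
        (fderiv ℝ (bk ((k : ℝ) + 1)) (τs m x) (c • sy (Gs m x) - a • τs m x)))) volume :=
      wint hζa hζb ((l2_inner hd ((hF k).mem m)).const_mul 2)
    have q2 : Integrable (fun x => ζ x * (2 * inner ℝ (tk k x)
        (br (bk ((k : ℝ) + 1) (τs m x)) (S m x)))) volume :=
      wint hζa hζb ((l2_inner hw ((hD k).mem m)).const_mul 2)
    have q3 : ∫ z, ζ z * (2 * inner ℝ (bk ((k : ℝ) + 1) (τs m z))
      (fderiv ℝ (bk ((k : ℝ) + 1)) (τs m z) (c • sy (Gs m z) - a • τs m z)) -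
      2 * inner ℝ (tk k z) (fderiv ℝ (bk ((k : ℝ) + 1)) (τs m z)
        (c • sy (Gs m z) - a • τs m z) - br (bk ((k : ℝ) + 1) (τs m z)) (S m z))) =
      (∫ x, ζ x * (2 * inner ℝ (bk ((k : ℝ) + 1) (τs m x) - tk k x)
        (fderiv ℝ (bk ((k : ℝ) + 1)) (τs m x) (c • sy (Gs m x) - a • τs m x)))) +
      ∫ x, ζ x * (2 * inner ℝ (tk k x) (br (bk ((k : ℝ) + 1) (τs m x)) (S m x))) := by
      rw [← integral_add q1 q2]
      refine integral_congr_ae (Eventually.of_forall fun x => ?_)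
      simp only [inner_sub_right, inner_sub_left]
      ring
    rw [q3]
    simp only [syL_apply] at p1 ⊢
    linarith)
  have h1 : ∫ x in B, (ta j x - ta l x) ≤ ∫ x, |A x - ta l x| := by
    have i1 : Integrable (fun x => |A x - ta l x|) volume := (hA.sub (htai l)).abs
    calc ∫ x in B, (ta j x - ta l x) ≤ ∫ x in B, |A x - ta l x| := by
          refine integral_mono_ae ((htai j).sub (htai l)).integrableOn i1.integrableOn ?_
          refine ae_restrict_of_ae ?_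
          filter_upwards [hb] with x hx
          have h2 := (hx j).2.1
          have h3 := le_abs_self (A x - ta l x)
          linarith
      _ ≤ ∫ x, |A x - ta l x| :=
          setIntegral_le_integral i1 (Eventually.of_forall fun x => abs_nonneg _)
  have h2 := mul_le_mul_of_nonneg_left h1 (mul_nonneg hL (by positivity : 0 ≤ 16 / lam))
  linarith

theorem bdd_sq {α : Type*} [MeasurableSpace α] {μ : Measure α} {E : Type*}
    [NormedAddCommGroup E] [InnerProductSpace ℝ E] {u : ℕ → α → E} {U : α → E} (h : WC μ u U) :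
    ∃ K : ℝ, 0 ≤ K ∧ ∀ m, ∫ x, ‖u m x‖ ^ 2 ∂μ ≤ K := by
  obtain ⟨C, hC⟩ := h.bdd
  refine ⟨(max C 0) ^ 2, by positivity, fun m => ?_⟩
  exact int_sq_le (h.mem m) (le_max_right _ _)
    ((hC m).trans (ENNReal.ofReal_le_ofReal (le_max_left _ _)))

/-- N2b: the key inequality -/
theorem lemmaP {τs Gs : ℕ → ST n → Mt n} {τ G : ST n → Mt n} {tk gk : ℕ → ST n → Mt n}
    {ta ga : ℕ → ST n → ℝ} (hτ : TV volume τs τ tk ta) (hG : TV volume Gs G gk ga)
    {a c M C : ℝ} {θ V : ST n → ℝ} (hθi : Integrable θ) (hVi : Integrable V)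
    (hθ : Tendsto (fun k => ∫ z, |ta k z - ‖tk k z‖ ^ 2 - θ z|) atTop (𝓝 0))
    (hV : Tendsto (fun k => ∫ z, |ga k z - ‖gk k z‖ ^ 2 - V z|) atTop (𝓝 0))
    (hVθ : ∀ᵐ z, V z ≤ C * θ z)
    {S : ℕ → ST n → Mt n} (hS : ∀ m, MemLp (S m) 2 volume)
    (hSa : ∀ m, ∀ᵐ z, tr (S m z) = - S m z) (hSp : SpinProp S G gk ga M)
    {F D : ℕ → ST n → Mt n} {Q : ℕ → ST n → ℝ}
    (hF : ∀ k : ℕ, WC volume (fun m z => fderiv ℝ (bk ((k : ℝ) + 1)) (τs m z)
      (c • sy (Gs m z) - a • τs m z)) (F k))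
    (hD : ∀ k : ℕ, WC volume (fun m z => br (bk ((k : ℝ) + 1) (τs m z)) (S m z)) (D k))
    (hQ : ∀ k : ℕ, WC volume (fun m z => 2 * inner ℝ (bk ((k : ℝ) + 1) (τs m z))
      (fderiv ℝ (bk ((k : ℝ) + 1)) (τs m z) (c • sy (Gs m z) - a • τs m z))) (Q k)) :
    ∃ C' : ℝ, ∀ B : Set (ST n), MeasurableSet B → volume B < ⊤ →
      ∃ e : ℕ → ℝ, Tendsto e atTop (𝓝 0) ∧ ∀ (k : ℕ) (ζ : ST n → ℝ) (L : ℝ), Measurable ζ →
        (∀ z, 0 ≤ ζ z ∧ ζ z ≤ L) → (∀ z, z ∉ B → ζ z = 0) →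
        ∫ z, ζ z * (Q k z - 2 * inner ℝ (tk k z) (F k z - D k z)) ≤
          C' * (∫ z, ζ z * ((1 + ‖tk k z‖) ^ 2 * (ta k z - ‖tk k z‖ ^ 2) + θ z)) + L * e k := by
  obtain ⟨K1, hK10, hK1⟩ := bdd_sq hτ.w
  obtain ⟨K2, hK20, hK2⟩ := bdd_sq hG.w
  obtain ⟨A, hA, hb, hθ0, htai, hL1, hlimτ⟩ := tv_pack hτ hθi hθ
  obtain ⟨A', hA', hb', hV0, hgai, hL1', hlimG⟩ := tv_pack hG hVi hV
  have hAi : 0 ≤ ∫ x, A x := integral_nonneg_of_ae (by
    filter_upwards [hb] with x hx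
    exact (sq_nonneg _).trans ((hx 0).1.trans (hx 0).2.1))
  refine ⟨2 + (2 * c ^ 2 + 2) * |C| + 2 * a ^ 2, fun B hB hBf => ?_⟩
  -- the inequality with explicit error
  have hmain : ∀ (k l : ℕ) (lam N : ℝ), 0 < lam → 0 ≤ N → ∀ (ζ : ST n → ℝ) (L : ℝ),
      Measurable ζ → (∀ z, 0 ≤ ζ z ∧ ζ z ≤ L) → (∀ z, z ∉ B → ζ z = 0) →
        ∫ z, ζ z * (Q k z - 2 * inner ℝ (tk k z) (F k z - D k z)) ≤
          (2 + (2 * c ^ 2 + 2) * |C| + 2 * a ^ 2) *
            (∫ z, ζ z * ((1 + ‖tk k z‖) ^ 2 * (ta k z - ‖tk k z‖ ^ 2) + θ z)) +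
          L * (4 * ((l : ℝ) + 1) / ((k : ℝ) + 1) *
            ((2 * K1 + 2 * ∫ x, A x) + (2 * c ^ 2 * K2 + 2 * a ^ 2 * K1)) +
            lam * (2 * c ^ 2 * K2 + 2 * a ^ 2 * K1) +
            8 / lam * ((∫ x, max (A x - N) 0) + N * (K1 / (2 * ((l : ℝ) + 1)) ^ 2)) +
            16 / lam * (∫ x, |A x - ta l x|)) := by
    intro k l lam N hlam hN ζ L hζm hζ hζB
    have hL : 0 ≤ L := (hζ 0).1.trans (hζ 0).2
    have hζa : AEStronglyMeasurable ζ volume := hζm.aestronglyMeasurable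
    have hζb : ∀ᵐ x, |ζ x| ≤ L := Eventually.of_forall fun x => by
      rw [abs_of_nonneg (hζ x).1]; exact (hζ x).2
    have hl1 := hlimτ ζ L hζa hζb
    have hl2 := hlimG ζ L hζa hζb
    have hz : Tendsto (fun j : ℕ => (1 : ℝ) / ((j : ℝ) + 1)) atTop (𝓝 0) :=
      tendsto_one_div_add_atTop_nhds_zero_nat
    -- the limit `j → ∞`
    have hlim : Tendsto (fun j : ℕ =>
        L * errB a c k l j lam N K1 K2 (∫ x, A x) (∫ x, max (A x - N) 0) +
        L * (16 / lam) * (∫ x, |A x - ta l x|) +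
        (∫ x, ζ x * (ta k x - ‖tk k x‖ ^ 2)) +
        (2 * c ^ 2 * (∫ x, ζ x * (ga j x - 2 * inner ℝ (gk j x) (G x) + ‖G x‖ ^ 2)) +
          2 * a ^ 2 * (∫ x, ζ x * (ta j x - 2 * inner ℝ (tk j x) (τ x) + ‖τ x‖ ^ 2))) +
        L * (8 * ((k : ℝ) + 1) ^ 2) * (M / ((j : ℝ) + 1)) +
        2 * (∫ x, (ζ x * ‖tk k x‖ ^ 2) * (ta k x - ‖tk k x‖ ^ 2)) +
        2 * (∫ x, ζ x * (ga j x - 2 * inner ℝ (gk j x) (G x) + ‖G x‖ ^ 2))) atTop
        (𝓝 (L * (4 * ((l : ℝ) + 1) / ((k : ℝ) + 1) *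
            ((2 * K1 + 2 * ∫ x, A x) + (2 * c ^ 2 * K2 + 2 * a ^ 2 * K1)) +
            lam * (2 * c ^ 2 * K2 + 2 * a ^ 2 * K1) +
            8 / lam * ((∫ x, max (A x - N) 0) + N * (K1 / (2 * ((l : ℝ) + 1)) ^ 2))) +
        L * (16 / lam) * (∫ x, |A x - ta l x|) +
        (∫ x, ζ x * (ta k x - ‖tk k x‖ ^ 2)) +
        (2 * c ^ 2 * (∫ x, ζ x * V x) + 2 * a ^ 2 * (∫ x, ζ x * θ x)) + 0 +
        2 * (∫ x, (ζ x * ‖tk k x‖ ^ 2) * (ta k x - ‖tk k x‖ ^ 2)) +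
        2 * (∫ x, ζ x * V x))) := by
      refine (((((Tendsto.add (Tendsto.add ?_ tendsto_const_nhds) tendsto_const_nhds).add
        ((hl2.const_mul _).add (hl1.const_mul _))).add ?_).add tendsto_const_nhds).add
        (hl2.const_mul 2))
      · refine Tendsto.const_mul L ?_
        unfold errB
        have h1 := (hz.const_mul (4 * ((k : ℝ) + 1) * (|c| * K2 + |a| * K1)))
        rw [mul_zero] at h1
        have h2 := ((h1.add_const (4 * ((l : ℝ) + 1) / ((k : ℝ) + 1) *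
            ((2 * K1 + 2 * ∫ x, A x) + (2 * c ^ 2 * K2 + 2 * a ^ 2 * K1)))).add_const
            (lam * (2 * c ^ 2 * K2 + 2 * a ^ 2 * K1))).add_const
            (8 / lam * ((∫ x, max (A x - N) 0) + N * (K1 / (2 * ((l : ℝ) + 1)) ^ 2)))
        rw [zero_add] at h2
        refine h2.congr (fun j => ?_)
        ring
      · have h1 := hz.const_mul (L * (8 * ((k : ℝ) + 1) ^ 2) * M)
        rw [mul_zero] at h1
        refine h1.congr (fun j => ?_)
        ring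
    have hle := ge_of_tendsto hlim (by
      filter_upwards [eventually_ge_atTop k, eventually_ge_atTop (2 * (l + 1))] with j hj1 hj2
      exact level_j hτ hG hA hb htai hSa hSp hF hD hQ hK1 hK2 hB hBf hj1 (by omega) hlam hN
        hζm hζ hζB)
    -- collecting the terms
    have hwk : ∀ᵐ x, ‖tk k x‖ ≤ (k : ℝ) + 1 := by
      filter_upwards [hb] with x hx
      exact (hx k).2.2
    have hw : MemLp (tk k) 2 volume := (hτ.wk k).memU
    have hζw : ∀ᵐ x, |ζ x * ‖tk k x‖ ^ 2| ≤ L * ((k : ℝ) + 1) ^ 2 := by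
      filter_upwards [hζb, hwk] with x h1 h2
      rw [abs_mul, abs_of_nonneg (sq_nonneg ‖tk k x‖)]
      exact mul_le_mul h1 (pow_le_pow_left₀ (norm_nonneg _) h2 2) (sq_nonneg _) hL
    have iθk : Integrable (fun x => ta k x - ‖tk k x‖ ^ 2) volume := (htai k).sub (l2_sq hw)
    have i1 : Integrable (fun x => ζ x * (ta k x - ‖tk k x‖ ^ 2)) volume := wint hζa hζb iθk
    have i2 : Integrable (fun x => (ζ x * ‖tk k x‖ ^ 2) * (ta k x - ‖tk k x‖ ^ 2)) volume :=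
      wint (hζa.mul (l2_sq hw).1) hζw iθk
    have i3 : Integrable (fun x => ζ x * θ x) volume := wint hζa hζb hθi
    have i4 : Integrable (fun x => ζ x * V x) volume := wint hζa hζb hVi
    have hζw3 : ∀ᵐ x, |ζ x * (1 + ‖tk k x‖) ^ 2| ≤ L * ((k : ℝ) + 2) ^ 2 := by
      filter_upwards [hζb, hwk] with x h1 h2
      rw [abs_mul, abs_of_nonneg (sq_nonneg (1 + ‖tk k x‖))]
      refine mul_le_mul h1 (pow_le_pow_left₀ (by positivity) ?_ 2) (sq_nonneg _) hL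
      linarith
    have i5 : Integrable (fun x => (ζ x * (1 + ‖tk k x‖) ^ 2) * (ta k x - ‖tk k x‖ ^ 2))
        volume :=
      wint (hζa.mul ((aestronglyMeasurable_const.add hw.1.norm).pow 2)) hζw3 iθk
    have i6 : Integrable (fun x => ζ x * ((1 + ‖tk k x‖) ^ 2 * (ta k x - ‖tk k x‖ ^ 2) + θ x))
        volume := by
      refine (i5.add i3).congr (Eventually.of_forall fun x => ?_)
      simp only [Pi.add_apply]
      ring
    have hcol : (∫ x, ζ x * (ta k x - ‖tk k x‖ ^ 2)) +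
        (2 * c ^ 2 * (∫ x, ζ x * V x) + 2 * a ^ 2 * (∫ x, ζ x * θ x)) +
        2 * (∫ x, (ζ x * ‖tk k x‖ ^ 2) * (ta k x - ‖tk k x‖ ^ 2)) +
        2 * (∫ x, ζ x * V x) ≤ (2 + (2 * c ^ 2 + 2) * |C| + 2 * a ^ 2) *
            (∫ z, ζ z * ((1 + ‖tk k z‖) ^ 2 * (ta k z - ‖tk k z‖ ^ 2) + θ z)) := by
      have j1 : Integrable (fun x => 2 * c ^ 2 * (ζ x * V x) + 2 * a ^ 2 * (ζ x * θ x))
        volume := (i4.const_mul _).add (i3.const_mul _)
      have j2 : Integrable (fun x => ζ x * (ta k x - ‖tk k x‖ ^ 2) +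
        (2 * c ^ 2 * (ζ x * V x) + 2 * a ^ 2 * (ζ x * θ x))) volume := i1.add j1
      have j3 : Integrable (fun x => ζ x * (ta k x - ‖tk k x‖ ^ 2) +
        (2 * c ^ 2 * (ζ x * V x) + 2 * a ^ 2 * (ζ x * θ x)) +
        2 * ((ζ x * ‖tk k x‖ ^ 2) * (ta k x - ‖tk k x‖ ^ 2))) volume :=
        j2.add (i2.const_mul 2)
      rw [← integral_const_mul, ← integral_const_mul, ← integral_const_mul,
        ← integral_const_mul, ← integral_const_mul, ← integral_add (i4.const_mul _)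
        (i3.const_mul _), ← integral_add i1 j1, ← integral_add j2 (i2.const_mul 2),
        ← integral_add j3 (i4.const_mul 2)]
      refine integral_mono_ae (j3.add (i4.const_mul 2)) (i6.const_mul _) ?_
      filter_upwards [hb, hθ0, hV0, hVθ] with x hx h1 h2 h3
      have hζ0 := (hζ x).1
      have h4 : 0 ≤ ta k x - ‖tk k x‖ ^ 2 := by linarith [(hx k).1]
      have h5 : V x ≤ |C| * θ x := h3.trans (mul_le_mul_of_nonneg_right (le_abs_self C) h1)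
      have h6 : 0 ≤ ‖tk k x‖ := norm_nonneg _
      have hc2 : 0 ≤ 2 * c ^ 2 + 2 := by positivity
      have h7 : (2 * c ^ 2 + 2) * V x ≤ (2 * c ^ 2 + 2) * |C| * θ x := by
        have := mul_le_mul_of_nonneg_left h5 hc2
        linarith
      set q := ta k x - ‖tk k x‖ ^ 2 with hq
      set w := ‖tk k x‖ with hw
      have h8 : q + 2 * (w ^ 2 * q) + (2 * c ^ 2 + 2) * V x + 2 * a ^ 2 * θ x ≤
          (2 + (2 * c ^ 2 + 2) * |C| + 2 * a ^ 2) * ((1 + w) ^ 2 * q + θ x) := by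
        have h9 : q + 2 * (w ^ 2 * q) ≤ 2 * ((1 + w) ^ 2 * q) := by nlinarith
        have h10 : 0 ≤ (1 + w) ^ 2 * q := by positivity
        have h11 : 0 ≤ (2 * c ^ 2 + 2) * |C| * ((1 + w) ^ 2 * q) := by positivity
        have h12 : 0 ≤ a ^ 2 * ((1 + w) ^ 2 * q) := by positivity
        nlinarith
      have h9 := mul_le_mul_of_nonneg_left h8 hζ0
      calc _ = ζ x * (q + 2 * (w ^ 2 * q) + (2 * c ^ 2 + 2) * V x + 2 * a ^ 2 * θ x) := by ring
        _ ≤ _ := h9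
        _ = _ := by ring
    linarith
  obtain ⟨KK, hKK⟩ : ∃ KK : ℝ, KK = 2 * c ^ 2 * K2 + 2 * a ^ 2 * K1 := ⟨_, rfl⟩
  have hKK0 : 0 ≤ KK := by rw [hKK]; positivity
  obtain ⟨KA, hKA⟩ : ∃ KA : ℝ, KA = (2 * K1 + 2 * ∫ x, A x) + KK := ⟨_, rfl⟩
  have hKA0 : 0 ≤ KA := by rw [hKA]; positivity
  -- for every `lam` there is `l` with error at most `4 (l+1)/(k+1) KA + lam (KK + 24)`
  have hlam : ∀ lam : ℝ, 0 < lam → ∃ l : ℕ, ∀ (k : ℕ) (ζ : ST n → ℝ) (L : ℝ),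
      Measurable ζ → (∀ z, 0 ≤ ζ z ∧ ζ z ≤ L) → (∀ z, z ∉ B → ζ z = 0) →
        ∫ z, ζ z * (Q k z - 2 * inner ℝ (tk k z) (F k z - D k z)) ≤
          (2 + (2 * c ^ 2 + 2) * |C| + 2 * a ^ 2) *
            (∫ z, ζ z * ((1 + ‖tk k z‖) ^ 2 * (ta k z - ‖tk k z‖ ^ 2) + θ z)) +
          L * (4 * ((l : ℝ) + 1) / ((k : ℝ) + 1) * KA + lam * (KK + 32)) := by
    intro lam hlam
    obtain ⟨N, hN⟩ := ((trunc_tail hA).eventually_lt_const
      (by positivity : (0 : ℝ) < lam ^ 2)).exists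
    have hl1 : ∀ᶠ l : ℕ in atTop, (N : ℝ) * (K1 / (2 * ((l : ℝ) + 1)) ^ 2) < lam ^ 2 := by
      have h1 : Tendsto (fun l : ℕ => ((N : ℝ) * K1 / 4) * ((1 / ((l : ℝ) + 1)) *
          (1 / ((l : ℝ) + 1)))) atTop (𝓝 (((N : ℝ) * K1 / 4) * (0 * 0))) :=
        ((tendsto_one_div_add_atTop_nhds_zero_nat (𝕜 := ℝ)).mul
          (tendsto_one_div_add_atTop_nhds_zero_nat (𝕜 := ℝ))).const_mul _
      rw [mul_zero, mul_zero] at h1
      filter_upwards [h1.eventually_lt_const (by positivity : (0 : ℝ) < lam ^ 2)] with l hl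
      refine lt_of_eq_of_lt ?_ hl
      field_simp
      ring
    have hl2 : ∀ᶠ l : ℕ in atTop, ∫ x, |A x - ta l x| < lam ^ 2 / 2 + lam ^ 2 / 2 :=
      hL1.eventually_lt_const (by positivity)
    obtain ⟨l, h1, h2⟩ := (hl1.and hl2).exists
    refine ⟨l, fun k ζ L hζm hζ hζB => ?_⟩
    have hL : 0 ≤ L := (hζ 0).1.trans (hζ 0).2
    refine (hmain k l lam N hlam (Nat.cast_nonneg N) ζ L hζm hζ hζB).trans ?_
    rw [← hKK, ← hKA]
    have h3 : 8 / lam * ((∫ x, max (A x - N) 0) + N * (K1 / (2 * ((l : ℝ) + 1)) ^ 2)) ≤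
        16 * lam := by
      have h4 : (∫ x, max (A x - N) 0) + N * (K1 / (2 * ((l : ℝ) + 1)) ^ 2) ≤ 2 * lam ^ 2 := by
        linarith
      have h5 := mul_le_mul_of_nonneg_left h4 (by positivity : 0 ≤ 8 / lam)
      refine h5.trans (le_of_eq ?_)
      field_simp
      ring
    have h4 : 16 / lam * (∫ x, |A x - ta l x|) ≤ 16 * lam := by
      have h4 : (∫ x, |A x - ta l x|) ≤ lam ^ 2 := by linarith
      have h5 := mul_le_mul_of_nonneg_left h4 (by positivity : 0 ≤ 16 / lam)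
      refine h5.trans (le_of_eq ?_)
      field_simp
    have h5 : 4 * ((l : ℝ) + 1) / ((k : ℝ) + 1) * KA + lam * KK +
        8 / lam * ((∫ x, max (A x - N) 0) + N * (K1 / (2 * ((l : ℝ) + 1)) ^ 2)) +
        16 / lam * (∫ x, |A x - ta l x|) ≤
        4 * ((l : ℝ) + 1) / ((k : ℝ) + 1) * KA + lam * (KK + 32) := by linarith
    have h6 := mul_le_mul_of_nonneg_left h5 hL
    linarith
  -- conclusion
  obtain ⟨e, he0, he⟩ := exists_e (fun k ε => ∀ (ζ : ST n → ℝ) (L : ℝ), Measurable ζ →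
        (∀ z, 0 ≤ ζ z ∧ ζ z ≤ L) → (∀ z, z ∉ B → ζ z = 0) →
        ∫ z, ζ z * (Q k z - 2 * inner ℝ (tk k z) (F k z - D k z)) ≤
          (2 + (2 * c ^ 2 + 2) * |C| + 2 * a ^ 2) *
            (∫ z, ζ z * ((1 + ‖tk k z‖) ^ 2 * (ta k z - ‖tk k z‖ ^ 2) + θ z)) + L * ε)
    (by
      intro k ε ε' hε h ζ L h1 h2 h3
      have hL : 0 ≤ L := (h2 0).1.trans (h2 0).2
      have := mul_le_mul_of_nonneg_left hε hL
      linarith [h ζ L h1 h2 h3])
    (by
      intro k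
      obtain ⟨l, hl⟩ := hlam 1 one_pos
      exact ⟨_, hl k⟩)
    (by
      intro ε hε
      obtain ⟨l, hl⟩ := hlam (ε / (2 * (KK + 32))) (by positivity)
      have h1 : Tendsto (fun k : ℕ => (4 * ((l : ℝ) + 1) * KA) * (1 / ((k : ℝ) + 1))) atTop
          (𝓝 ((4 * ((l : ℝ) + 1) * KA) * 0)) :=
        (tendsto_one_div_add_atTop_nhds_zero_nat (𝕜 := ℝ)).const_mul _
      rw [mul_zero] at h1
      filter_upwards [h1.eventually_lt_const (by linarith : (0 : ℝ) < ε / 2)] with k hk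
      intro ζ L h1 h2 h3
      have hL : 0 ≤ L := (h2 0).1.trans (h2 0).2
      refine (hl k ζ L h1 h2 h3).trans ?_
      have h4 : 4 * ((l : ℝ) + 1) / ((k : ℝ) + 1) * KA + ε / (2 * (KK + 32)) * (KK + 32) ≤ ε := by
        have h5 : ε / (2 * (KK + 32)) * (KK + 32) = ε / 2 := by field_simp
        have h6 : 4 * ((l : ℝ) + 1) / ((k : ℝ) + 1) * KA =
          (4 * ((l : ℝ) + 1) * KA) * (1 / ((k : ℝ) + 1)) := by ring
        rw [h5, h6]
        linarith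
      have h7 := mul_le_mul_of_nonneg_left h4 hL
      linarith)
  exact ⟨e, he0, fun k ζ L h1 h2 h3 => he k ζ L h1 h2 h3⟩

end Pool.Agent.Helper1.JefP
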